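import Pool.Agent.Helper69.Kak.B2a

/-! Module B2b of MP_013a6c_an: measure preservation of `repl`, density of the tower sets. -/

open MeasureTheory Set Topology Filter
open scoped symmDiff ENNReal ProbabilityTheory

namespace KakC

/-- the cylinders -/
private def B2b_cyl (t : ℕ → ℕ) (k : ℕ) : Set (Set PP) :=
  {C | ∃ m, k ≤ m ∧ ∃ ω : ℕ × ℕ, C = w t m ⁻¹' {ω}}

private theorem B2b_w_mono (t : ℕ → ℕ) {m m' : ℕ} (hm : m ≤ m') {ξ η : PP}
    (hw : w t m' ξ = w t m' η) : w t m ξ = w t m η :=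
  w_congr (fun _ _ => rfl) (fun j hj => w_inj hw j (hj.trans hm))

private theorem B2b_pi (t : ℕ → ℕ) (k : ℕ) : IsPiSystem (B2b_cyl t k) := by
  have key : ∀ m m' : ℕ, m ≤ m' → k ≤ m' → ∀ ω ω' : ℕ × ℕ,
      ((w t m ⁻¹' {ω}) ∩ (w t m' ⁻¹' {ω'})).Nonempty →
      (w t m ⁻¹' {ω}) ∩ (w t m' ⁻¹' {ω'}) ∈ B2b_cyl t k := by
    intro m m' hm hk ω ω' ⟨ξ, h1, h2⟩
    refine ⟨m', hk, ω', ?_⟩
    refine inter_eq_right.2 fun η hη => ?_
    have h3 : w t m' η = w t m' ξ := by
      rw [show w t m' η = ω' from hη, show w t m' ξ = ω' from h2]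
    have h4 : w t m η = w t m ξ := B2b_w_mono t hm h3
    exact h4.trans h1
  rintro _ ⟨m, hm, ω, rfl⟩ _ ⟨m', hm', ω', rfl⟩ hne
  rcases le_total m m' with hmm | hmm
  · exact key m m' hmm hm' ω ω' hne
  · rw [inter_comm] at hne ⊢
    exact key m' m hmm hm ω' ω hne

private theorem B2b_gen (t : ℕ → ℕ) (k : ℕ) :
    (inferInstance : MeasurableSpace PP) = MeasurableSpace.generateFrom (B2b_cyl t k) := by
  apply le_antisymm
  · have hw : ∀ m, k ≤ m → @Measurable PP (ℕ × ℕ)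
        (MeasurableSpace.generateFrom (B2b_cyl t k)) _ (w t m) := by
      intro m hm
      refine @measurable_to_countable' (ℕ × ℕ) PP _ _ (MeasurableSpace.generateFrom _) _ ?_
      intro ω
      exact MeasurableSpace.measurableSet_generateFrom ⟨m, hm, ω, rfl⟩
    refine iSup_le fun j => ?_
    rintro _ ⟨A, -, rfl⟩
    have e : (fun ξ : PP => ξ j) ⁻¹' A =
        w t (max j k) ⁻¹' {ω | ∃ η : PP, w t (max j k) η = ω ∧ η j ∈ A} := by
      ext ξ
      constructor
      · intro hξ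
        exact ⟨ξ, rfl, hξ⟩
      · rintro ⟨η, h1, h2⟩
        have := w_inj h1 j (le_max_left _ _)
        show ξ j ∈ A
        rw [← this]
        exact h2
    have e2 : (Function.eval j : PP → _) ⁻¹' A = (fun ξ : PP => ξ j) ⁻¹' A := rfl
    rw [e2, e]
    exact hw _ (le_max_right _ _) (Set.to_countable _).measurableSet
  · apply MeasurableSpace.generateFrom_le
    rintro _ ⟨m, -, ω, rfl⟩
    exact measurable_w t m (measurableSet_singleton _)

private theorem B2b_law (t : ℕ → ℕ) (m : ℕ) (p q : PP) :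
    lam (w t m ⁻¹' {w t m p}) = lam (w t m ⁻¹' {w t m q}) := by
  have hp := w_mem t m p
  have hq := w_mem t m q
  have e1 : w t m p = ((w t m p).1, (w t m p).2) := rfl
  have e2 : w t m q = ((w t m q).1, (w t m q).2) := rfl
  rw [e1, e2, law_w t hp.1 hp.2, law_w t hq.1 hq.2]

private theorem B2b_pre (t s : ℕ → ℕ) (k : ℕ) {e : ℕ × ℕ → ℕ × ℕ}
    (he : Set.BijOn e (Om k) (Om k)) {m : ℕ} (hm : k ≤ m) (p : PP) :
    ∃ q : PP, (fun ξ => repl s k (e (w t k ξ)) ξ) ⁻¹' (w t m ⁻¹' {w t m p}) =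
      w t m ⁻¹' {w t m q} := by
  obtain ⟨ω, hω, hωe⟩ := he.surjOn (w_mem s k p)
  refine ⟨repl t k ω p, ?_⟩
  ext ξ
  simp only [mem_preimage, mem_singleton_iff]
  constructor
  · intro h1
    have h2 := w_inj h1
    have h3 : w s k (repl s k (e (w t k ξ)) ξ) = w s k p :=
      w_congr (fun _ _ => rfl) (fun j hj => h2 j (hj.trans hm))
    rw [w_repl s (he.mapsTo (w_mem t k ξ)), ← hωe] at h3
    have h4 : w t k ξ = ω := he.injOn (w_mem t k ξ) hω h3
    have h5 : w t k ξ = w t k (repl t k ω p) := by rw [w_repl t hω, h4]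
    refine w_congr (fun _ _ => rfl) fun j hj => ?_
    rcases le_or_gt j k with hjk | hjk
    · exact w_inj h5 j hjk
    · rw [repl_above t hjk, ← h2 j hj, repl_above s hjk]
  · intro h1
    have h2 := w_inj h1
    have h5 : w t k ξ = w t k (repl t k ω p) :=
      w_congr (fun _ _ => rfl) (fun j hj => h2 j (hj.trans hm))
    rw [w_repl t hω] at h5
    have h3 : w s k (repl s k (e (w t k ξ)) ξ) = w s k p := by
      rw [w_repl s (he.mapsTo (w_mem t k ξ)), h5, hωe]
    refine w_congr (fun _ _ => rfl) fun j hj => ?_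
    rcases le_or_gt j k with hjk | hjk
    · exact w_inj h3 j hjk
    · rw [repl_above s hjk, h2 j hj, repl_above t hjk]

theorem mp_repl (t s : ℕ → ℕ) (k : ℕ) {e : ℕ × ℕ → ℕ × ℕ} (he : Set.BijOn e (Om k) (Om k)) :
    MeasurePreserving (fun ξ => repl s k (e (w t k ξ)) ξ) lam lam := by
  have := lam_prob
  have hR : Measurable (fun ξ => repl s k (e (w t k ξ)) ξ) :=
    measurable_repl s k ((measurable_of_countable e).comp (measurable_w t k)) measurable_id
  refine ⟨hR, ?_⟩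
  have : IsProbabilityMeasure (Measure.map (fun ξ => repl s k (e (w t k ξ)) ξ) lam) :=
    Measure.isProbabilityMeasure_map hR.aemeasurable
  refine ext_of_generate_finite (B2b_cyl t k) (B2b_gen t k) (B2b_pi t k) ?_ (by simp)
  rintro _ ⟨m, hm, ω, rfl⟩
  rw [Measure.map_apply hR (measurable_w t m (measurableSet_singleton _))]
  by_cases hp : ∃ p, w t m p = ω
  · obtain ⟨p, rfl⟩ := hp
    obtain ⟨q, hq⟩ := B2b_pre t s k he hm p
    rw [hq]
    exact B2b_law t m q p
  · have h0 : w t m ⁻¹' {ω} = ∅ := by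
      ext ξ
      simp only [mem_preimage, mem_singleton_iff, mem_empty_iff_false, iff_false]
      exact fun h => hp ⟨ξ, h⟩
    rw [h0, preimage_empty]

private theorem B2b_lift (t : ℕ → ℕ) {m m' : ℕ} (hm : m ≤ m') (E : Set (ℕ × ℕ)) :
    w t m ⁻¹' E = w t m' ⁻¹' {ω | ∃ η : PP, w t m' η = ω ∧ w t m η ∈ E} := by
  ext ξ
  constructor
  · intro hξ
    exact ⟨ξ, rfl, hξ⟩
  · rintro ⟨η, h1, h2⟩
    have := B2b_w_mono t hm h1
    show w t m ξ ∈ E
    rw [← this]
    exact h2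

theorem lam_gen (t : ℕ → ℕ) (S : Set PP) (hS : MeasurableSet S) (ε : ℝ≥0∞) (hε : 0 < ε) :
    ∃ (k : ℕ) (E : Set (ℕ × ℕ)), lam (S ∆ (w t k ⁻¹' E)) < ε := by
  have := lam_prob
  let C : Set (Set PP) := {A | ∃ (k : ℕ) (E : Set (ℕ × ℕ)), A = w t k ⁻¹' E}
  have hring : IsSetRing C := by
    refine ⟨⟨0, ∅, by simp⟩, ?_, ?_⟩
    · rintro _ _ ⟨k, E, rfl⟩ ⟨k', E', rfl⟩
      rw [B2b_lift t (le_max_left k k') E, B2b_lift t (le_max_right k k') E', ← preimage_union]
      exact ⟨_, _, rfl⟩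
    · rintro _ _ ⟨k, E, rfl⟩ ⟨k', E', rfl⟩
      rw [B2b_lift t (le_max_left k k') E, B2b_lift t (le_max_right k k') E', ← preimage_sdiff]
      exact ⟨_, _, rfl⟩
  have hgen : (inferInstance : MeasurableSpace PP) = MeasurableSpace.generateFrom C := by
    apply le_antisymm
    · rw [B2b_gen t 0]
      apply MeasurableSpace.generateFrom_mono
      rintro _ ⟨m, -, ω, rfl⟩
      exact ⟨m, {ω}, rfl⟩
    · apply MeasurableSpace.generateFrom_le
      rintro _ ⟨m, E, rfl⟩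
      exact measurable_w t m (Set.to_countable _).measurableSet
  have hcov : ∃ D : Set (Set PP), D.Countable ∧ D ⊆ C ∧ (lam (⋃₀ D)ᶜ = 0) := by
    refine ⟨{univ}, by simp, ?_, by simp⟩
    rintro _ rfl
    exact ⟨0, univ, by simp⟩
  obtain ⟨A, ⟨k, E, rfl⟩, hA⟩ := exists_measure_symmDiff_lt_of_generateFrom_isSetRing hring hcov
    hgen hS hε
  refine ⟨k, E, ?_⟩
  rw [symmDiff_comm]
  exact hA

end KakC
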