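import Pool.Agent.Helper8.Kak.DefsC

/-! Module B3 of MP_013a6c_an: limits of measure-preserving maps. -/

open MeasureTheory Set Topology Filter
open scoped symmDiff ENNReal ProbabilityTheory

namespace KakC

theorem mp_limit {X : Type*} [MeasurableSpace X] {μ : Measure X} [IsProbabilityMeasure μ]
    {R : ℕ → X → X} (hR : ∀ k, MeasurePreserving (R k) μ μ) {φ : X → X} (hφ : Measurable φ)
    {F : ℕ → Set X} (hF : Tendsto (fun k => μ (F k)ᶜ) atTop (𝓝 0))
    (hE : ∀ k, ∀ x ∈ F k, φ x = R k x) : MeasurePreserving φ μ μ := by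
  refine ⟨hφ, ?_⟩
  refine Measure.ext fun S hS => ?_
  rw [Measure.map_apply hφ hS]
  have h1 : ∀ k, μ (φ ⁻¹' S) ≤ μ S + μ (F k)ᶜ := by
    intro k
    rw [← (hR k).measure_preimage hS.nullMeasurableSet]
    refine (measure_mono ?_).trans (measure_union_le _ _)
    intro x hx
    by_cases hxF : x ∈ F k
    · left
      rw [mem_preimage, ← hE k x hxF]
      exact hx
    · right
      exact hxF
  have h2 : ∀ k, μ S ≤ μ (φ ⁻¹' S) + μ (F k)ᶜ := by
    intro k
    rw [← (hR k).measure_preimage hS.nullMeasurableSet]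
    refine (measure_mono ?_).trans (measure_union_le _ _)
    intro x hx
    by_cases hxF : x ∈ F k
    · left
      rw [mem_preimage, hE k x hxF]
      exact hx
    · right
      exact hxF
  apply le_antisymm
  · have : Tendsto (fun k => μ S + μ (F k)ᶜ) atTop (𝓝 (μ S + 0)) := tendsto_const_nhds.add hF
    rw [add_zero] at this
    exact ge_of_tendsto' this h1
  · have : Tendsto (fun k => μ (φ ⁻¹' S) + μ (F k)ᶜ) atTop (𝓝 (μ (φ ⁻¹' S) + 0)) :=
      tendsto_const_nhds.add hF
    rw [add_zero] at this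
    exact ge_of_tendsto' this h2

end KakC
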