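import Pool.Agent.Helper41.Kak.B4

/-! Module B7 of MP_013a6c_an: continuity in the parameter. -/

open MeasureTheory Set Topology Filter
open scoped symmDiff ENNReal ProbabilityTheory

namespace KakC

private theorem B7_le {t s : ℕ → ℕ} {k : ℕ} (hts : ∀ j < k, t j = s j) (S S' : Set PP) :
    lam ((TT s ⁻¹' S) ∆ S') ≤ lam ((TT t ⁻¹' S) ∆ S') + ((h k : ℕ) : ℝ≥0∞)⁻¹ := by
  refine le_trans ?_ (add_le_add_right (lam_top t k) _)
  refine (measure_mono ?_).trans (measure_union_le _ _)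
  intro ξ hξ
  by_cases hk : (w t k ξ).2 + 1 < h k
  · left
    have hw : w t k ξ = w s k ξ := w_congr hts fun _ _ => rfl
    have hk' : (w s k ξ).2 + 1 < h k := by rw [← hw]; exact hk
    have e : TT t ξ = TT s ξ := by
      rw [TT_eq t hk, TT_eq s hk', hw, repl_congr hts]
    rcases hξ with ⟨h1, h2⟩ | ⟨h1, h2⟩
    · exact Or.inl ⟨by rw [mem_preimage, e]; exact h1, h2⟩
    · exact Or.inr ⟨h1, by rw [mem_preimage, e]; exact h2⟩
  · right
    exact hk

theorem TT_cont {S S' : Set PP} (hS : MeasurableSet S) (hS' : MeasurableSet S') :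
    Continuous (fun t : ℕ → ℕ => lam ((TT t ⁻¹' S) ∆ S')) := by
  have := lam_prob
  rw [continuous_iff_continuousAt]
  intro t
  rw [ContinuousAt, ENNReal.tendsto_nhds (measure_ne_top _ _)]
  intro ε hε
  obtain ⟨k, hk⟩ : ∃ k, ((h k : ℕ) : ℝ≥0∞)⁻¹ ≤ ε := by
    have h1 : Tendsto (fun k => ((h k : ℕ) : ℝ≥0∞)⁻¹) atTop (𝓝 0) :=
      ENNReal.tendsto_inv_nat_nhds_zero.comp tendsto_h
    exact ((h1.eventually (ge_mem_nhds hε)).exists)
  have hnh : {s : ℕ → ℕ | ∀ j < k, t j = s j} ∈ 𝓝 t := by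
    have : {s : ℕ → ℕ | ∀ j < k, t j = s j} = ⋂ j ∈ Finset.range k, {s : ℕ → ℕ | t j = s j} := by
      ext s; simp
    rw [this]
    refine (Filter.biInter_finset_mem _).2 fun j _ => ?_
    have hc : Continuous fun s : ℕ → ℕ => s j := continuous_apply j
    have ho : IsOpen {s : ℕ → ℕ | t j = s j} :=
      (isOpen_discrete ({x | t j = x} : Set ℕ)).preimage hc
    exact ho.mem_nhds rfl
  filter_upwards [hnh] with s hs
  refine ⟨?_, ?_⟩
  · refine tsub_le_iff_right.2 ?_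
    exact (B7_le (fun j hj => (hs j hj).symm) S S').trans (by gcongr)
  · exact (B7_le hs S S').trans (by gcongr)

end KakC
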